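import Pool.Agent.H621R2.Lin

/-!
# Straight-line realizability of linear hypergraphs of rank at most three is `∃ℝ`-hard

This answers Q2 (and hence Q1, with `k = 3`) of MP_cb2e2a_lc affirmatively.

Idea of the proof.  A system of constraints `x = 1`, `x + y = z`, `x * y = z` over the reals is first
turned into a list of collinearity constraints between points, by quadrilateral (involution) gates
on the slopes of the lines through one point `O`; all nondegeneracy conditions are consequences of
the distinctness of the points.  Then every collinearity constraint on three points `X`, `Y`, `Z`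
is replaced by the eight other lines of a Pappus configuration on `X`, `Y`, `Z` and six new points:
as the points are distinct, these eight hyperedges of size three force `X`, `Y`, `Z` to be
collinear, and conversely the six new points can be added generically whenever `X`, `Y`, `Z` are
collinear.
-/

set_option autoImplicit false

namespace Pool.Agent.Results.MP_cb2e2a_lc.RankThree

open Pool.Agent.NPC Pool.Agent.NPC.ER

/-- Explicitly given finite hypergraphs: the list of the vertices (which are natural numbers) and
the list of the hyperedges, each of them given as the list of its vertices.  The order of the lists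
and repetitions in them are irrelevant. -/
abbrev HG : Type := List ℕ × List (List ℕ)

/-- The set of vertices. -/
def verts (H : HG) : Finset ℕ := H.1.toFinset

/-- The set of hyperedges. -/
def hedges (H : HG) : Finset (Finset ℕ) := (H.2.map List.toFinset).toFinset

/-- The hyperedges are sets of vertices with at least two elements. -/
def IsHypergraph (H : HG) : Prop := ∀ e ∈ hedges H, e ⊆ verts H ∧ 2 ≤ e.card

/-- Any two distinct hyperedges have at most one common vertex. -/
def IsLinear (H : HG) : Prop := ∀ e ∈ hedges H, ∀ f ∈ hedges H, e ≠ f → (e ∩ f).card ≤ 1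

/-- The rank is at most `k`. -/
def RankLE (k : ℕ) (H : HG) : Prop := ∀ e ∈ hedges H, e.card ≤ k

/-- Existence of a straight-line realization: the vertices are mapped injectively to points of the
plane and every hyperedge `e` to a closed segment such that the vertices lying on this segment are
exactly the vertices of `e`. -/
def Realizable (H : HG) : Prop :=
  ∃ p : ℕ → ℝ × ℝ, Set.InjOn p (verts H : Set ℕ) ∧
    ∀ e ∈ hedges H, ∃ a b : ℝ × ℝ, ∀ v ∈ verts H, p v ∈ segment ℝ a b ↔ v ∈ e

/-- Linear hypergraph realizability, restricted to inputs of rank at most `k`, is `∃ℝ`-hard: for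
every language `L` of the class `∃ℝ` there is a polynomial-time computable map `f` from strings to
(codes of) linear hypergraphs of rank at most `k` such that `w ∈ L` if and only if `f w` has a
straight-line realization. -/
def RealizabilityERHard (k : ℕ) : Prop :=
  ∀ L : Set (List Bool), InER L → ∃ f : List Bool → HG, PolyTime (fun w => bits (f w)) ∧
    (∀ w, IsHypergraph (f w) ∧ IsLinear (f w) ∧ RankLE k (f w)) ∧
    ∀ w, w ∈ L ↔ Realizable (f w)

/-- The hypergraph of a system of constraints. -/
def hgOf (S : List Con) : HG :=
  ((H621R2.edgesOf S).flatten, H621R2.edgesOf S)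

theorem poly_hgOf {α : Type} [TEnc α] {S : α → List Con} (hS : NPC.Poly S) :
    NPC.Poly (fun a => hgOf (S a)) :=
  NPC.Poly.pair (NPC.Poly.flatten (H621R2.poly_edgesOf hS)) (H621R2.poly_edgesOf hS)

theorem mem_hedges {H : HG} {e : Finset ℕ} : e ∈ hedges H ↔ ∃ l ∈ H.2, l.toFinset = e := by
  simp [hedges]

theorem prs_ne : ∀ u ∈ H621R2.prs, u.1 ≠ u.2 := by decide

theorem hgOf_props (S : List Con) :
    IsHypergraph (hgOf S) ∧ IsLinear (hgOf S) ∧ RankLE 3 (hgOf S) := by
  refine ⟨?_, ?_, ?_⟩
  · intro e he
    rw [mem_hedges] at he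
    obtain ⟨l, hl, rfl⟩ := he
    refine ⟨?_, (H621R2.hyp_card prs_ne (fun u hu => H621R2.trip_distinct hu) hl).1⟩
    intro v hv
    rw [List.mem_toFinset] at hv
    rw [verts, List.mem_toFinset]
    exact List.mem_flatten.2 ⟨l, hl, hv⟩
  · intro e he f hf hne
    rw [mem_hedges] at he hf
    obtain ⟨l, hl, rfl⟩ := he
    obtain ⟨m, hm, rfl⟩ := hf
    exact H621R2.hyp_lin (fun u hu => H621R2.trip_distinct hu) hl hm hne
  · intro e he
    rw [mem_hedges] at he
    obtain ⟨l, hl, rfl⟩ := he
    exact (H621R2.hyp_card prs_ne (fun u hu => H621R2.trip_distinct hu) hl).2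

theorem realizable_iff (S : List Con) :
    Realizable (hgOf S) ↔
      ∃ p, H621R2.Realizes (H621R2.vs (H621R2.edgesOf S)) (H621R2.edgesOf S) p := by
  have hv : (verts (hgOf S) : Set ℕ) = H621R2.vs (H621R2.edgesOf S) := by
    ext v
    simp [verts, hgOf, H621R2.vs]
  unfold Realizable H621R2.Realizes
  constructor
  · rintro ⟨p, h1, h2⟩
    refine ⟨p, hv ▸ h1, ?_⟩
    intro e he
    obtain ⟨a, b, hab⟩ := h2 e.toFinset (mem_hedges.2 ⟨e, he, rfl⟩)
    refine ⟨a, b, ?_⟩
    intro v hvv
    rw [← hv] at hvv
    rw [hab v hvv, List.mem_toFinset]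
  · rintro ⟨p, h1, h2⟩
    refine ⟨p, hv.symm ▸ h1, ?_⟩
    intro e he
    rw [mem_hedges] at he
    obtain ⟨l, hl, rfl⟩ := he
    obtain ⟨a, b, hab⟩ := h2 l hl
    refine ⟨a, b, ?_⟩
    intro v hvv
    have : v ∈ (verts (hgOf S) : Set ℕ) := hvv
    rw [hv] at this
    rw [hab v this, List.mem_toFinset]

/-- **Main theorem.**  Straight-line realizability of linear hypergraphs of rank at most three is
`∃ℝ`-hard. -/
theorem result : RealizabilityERHard 3 := by
  rintro L ⟨g, hg, hL⟩
  have h1 : PC (id : List Bool → List Bool) (bits : Fm → List Bool) g :=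
    H642R2.TMSim.polyTime_toPC hg
  have h2 : NPC.Poly (fun φ : Fm => hgOf (sysOf φ)) := poly_hgOf (poly_sysOf NPC.Poly.id)
  have h3 : PC (id : List Bool → List Bool) (bits : HG → List Bool) (fun x => hgOf (sysOf (g x))) :=
    PC.comp (g := fun φ : Fm => hgOf (sysOf φ)) (eb := (bits : Fm → List Bool)) h2 h1
  have h4 : PC (id : List Bool → List Bool) (id : List Bool → List Bool)
    (fun x => bits (hgOf (sysOf (g x)))) := h3
  refine ⟨fun x => hgOf (sysOf (g x)), PC.toPolyTime h4, fun w => hgOf_props _, fun w => ?_⟩
  rw [hL, ← sat_sysOf, realizable_iff]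
  exact H621R2.edgesOf_correct _

end Pool.Agent.Results.MP_cb2e2a_lc.RankThree
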